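import Mathlib

/-! A field with an archimedean absolute value normalized by `‖n‖ = n` embeds isometrically
into the complex numbers. -/

namespace Pool.Agent.R880.Ostr

open UniformSpace

lemma norm_eq_of_algEquiv {F A : Type*} [NormedField F] [NormedAlgebra ℝ F] [NormedField A]
    [NormedAlgebra ℝ A] [FiniteDimensional ℝ F] (e : F ≃ₐ[ℝ] A) (x : F) : ‖e x‖ = ‖x‖ := by
  obtain ⟨C, hC⟩ : ∃ C : ℝ, ∀ x : F, ‖e x‖ ≤ C * ‖x‖ :=
    ⟨‖e.toLinearMap.toContinuousLinearMap‖, fun x =>
      e.toLinearMap.toContinuousLinearMap.le_opNorm x⟩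
  have key : ∀ x : F, ‖e x‖ ≤ ‖x‖ := by
    intro x
    by_contra hlt
    push Not at hlt
    rcases eq_or_ne x 0 with hx | hx
    · subst hx; simp at hlt
    have hx0 : 0 < ‖x‖ := norm_pos_iff.2 hx
    have hr : 1 < ‖e x‖ / ‖x‖ := (one_lt_div hx0).2 hlt
    obtain ⟨n, hn⟩ := pow_unbounded_of_one_lt C hr
    have h1 := hC (x ^ n)
    rw [map_pow, norm_pow, norm_pow] at h1
    rw [div_pow, lt_div_iff₀ (pow_pos hx0 n)] at hn
    linarith
  rcases eq_or_ne x 0 with hx | hx
  · subst hx; simp
  refine le_antisymm (key x) ?_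
  have h2 := key x⁻¹
  rw [map_inv₀, norm_inv, norm_inv] at h2
  have hex : e x ≠ 0 := fun h => hx (by simpa using h)
  exact (inv_le_inv₀ (norm_pos_iff.2 hex) (norm_pos_iff.2 hx)).1 h2

theorem embed (K : Type*) [NormedField K] (h : ∀ n : ℕ, ‖(n : K)‖ = n) :
    ∃ ψ : K →+* ℂ, ∀ x, ‖ψ x‖ = ‖x‖ := by
  let F := Completion K
  have hF : ∀ n : ℕ, ‖(n : F)‖ = n := by
    intro n
    have : ((n : K) : F) = (n : F) := by
      have := map_natCast (Completion.coeRingHom : K →+* Completion K) n
      exact this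
    rw [← this, Completion.norm_coe, h]
  have : CharZero F := by
    refine charZero_of_inj_zero fun n hn => ?_
    have := hF n
    rw [hn, norm_zero] at this
    exact_mod_cast this.symm
  have hQ : ∀ q : ℚ, ‖(q : F)‖ = |(q : ℝ)| := by
    intro q
    have h1 : (q : F) = (q.num : F) / (q.den : F) := by
      exact_mod_cast Rat.cast_def q
    rw [h1, norm_div, hF]
    have h2 : ‖(q.num : F)‖ = |(q.num : ℝ)| := by
      obtain ⟨n, hh | hh⟩ := Int.eq_nat_or_neg q.num
      · rw [hh, Int.cast_natCast, Int.cast_natCast, hF, Nat.abs_cast]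
      · rw [hh, Int.cast_neg, Int.cast_neg, Int.cast_natCast, Int.cast_natCast, norm_neg, hF,
          abs_neg, Nat.abs_cast]
    rw [h2]
    conv_rhs => rw [Rat.cast_def q, abs_div]
    simp
  let i : ℚ →+* ℝ := Rat.castHom ℝ
  let f : ℚ →+* F := Rat.castHom F
  have hf : UniformContinuous f := by
    have : Isometry f := by
      refine Isometry.of_dist_eq fun x y => ?_
      rw [dist_eq_norm, ← map_sub, show f (x - y) = ((x - y : ℚ) : F) from rfl, hQ]
      rw [Rat.dist_eq]; push_cast; rfl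
    exact this.uniformContinuous
  have hi : IsUniformInducing i := Rat.isUniformEmbedding_coe_real.isUniformInducing
  have hd : DenseRange i := Rat.denseRange_cast
  let ι : ℝ →+* F := IsDenseInducing.extendRingHom hi hd hf
  have hcont : Continuous ι := (uniformContinuous_uniformly_extend hi hd hf).continuous
  have hι : ∀ q : ℚ, ι q = (q : F) := fun q =>
    IsDenseInducing.extend_eq (hi.isDenseInducing hd) hf.continuous q
  have hn : ∀ r : ℝ, ‖ι r‖ = ‖r‖ := by
    intro r
    refine hd.induction_on (p := fun r => ‖ι r‖ = ‖r‖) r ?_ ?_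
    · exact isClosed_eq (by fun_prop) (by fun_prop)
    · intro q
      rw [show ι (i q) = (q : F) from hι q, hQ]; rfl
  let _ : Algebra ℝ F := ι.toAlgebra
  let _ : NormedAlgebra ℝ F :=
    { norm_smul_le := fun r x => by
        rw [Algebra.smul_def, norm_mul]
        exact le_of_eq (by rw [show algebraMap ℝ F r = ι r from rfl, hn]) }
  rcases NormedAlgebra.Real.nonempty_algEquiv_or F with ⟨⟨e⟩⟩ | ⟨⟨e⟩⟩
  · have : FiniteDimensional ℝ F := Module.Finite.equiv e.symm.toLinearEquiv
    refine ⟨Complex.ofRealHom.comp (e.toRingEquiv.toRingHom.comp Completion.coeRingHom), fun x => ?_⟩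
    show ‖((e (x : F) : ℝ) : ℂ)‖ = ‖x‖
    rw [Complex.norm_real, norm_eq_of_algEquiv e, Completion.norm_coe]
  · have : FiniteDimensional ℝ F := Module.Finite.equiv e.symm.toLinearEquiv
    refine ⟨e.toRingEquiv.toRingHom.comp Completion.coeRingHom, fun x => ?_⟩
    show ‖e (x : F)‖ = ‖x‖
    rw [norm_eq_of_algEquiv e, Completion.norm_coe]

end Pool.Agent.R880.Ostr
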