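import Mathlib

/-! Quaternion numerical ranges for the involution that changes the sign of the `i`
coordinate. -/

namespace Pool.Agent.R880.QNR

open Quaternion

/-- the involution that changes the sign of the `i` coordinate -/
def phi0 (x : ℍ[ℝ]) : ℍ[ℝ] := ⟨x.re, -x.imI, x.imJ, x.imK⟩

@[simp] lemma phi0_re (x : ℍ[ℝ]) : (phi0 x).re = x.re := rfl
@[simp] lemma phi0_imI (x : ℍ[ℝ]) : (phi0 x).imI = -x.imI := rfl
@[simp] lemma phi0_imJ (x : ℍ[ℝ]) : (phi0 x).imJ = x.imJ := rfl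
@[simp] lemma phi0_imK (x : ℍ[ℝ]) : (phi0 x).imK = x.imK := rfl

lemma phi0_add (x y : ℍ[ℝ]) : phi0 (x + y) = phi0 x + phi0 y := by
  ext <;> simp; ring

lemma phi0_sub (x y : ℍ[ℝ]) : phi0 (x - y) = phi0 x - phi0 y := by
  ext <;> simp; ring

lemma phi0_smul (r : ℝ) (x : ℍ[ℝ]) : phi0 (r • x) = r • phi0 x := by
  ext <;> simp

lemma phi0_mul (x y : ℍ[ℝ]) : phi0 (x * y) = phi0 y * phi0 x := by
  ext <;> simp <;> ring

lemma phi0_phi0 (x : ℍ[ℝ]) : phi0 (phi0 x) = x := by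
  ext <;> simp

@[simp] lemma phi0_zero : phi0 0 = 0 := by
  ext <;> simp

@[simp] lemma phi0_one : phi0 1 = 1 := by
  ext <;> simp

lemma normSq_phi0 (x : ℍ[ℝ]) : normSq (phi0 x) = normSq x := by
  rw [Quaternion.normSq_def', Quaternion.normSq_def']; simp

lemma norm_phi0 (x : ℍ[ℝ]) : ‖phi0 x‖ = ‖x‖ := by
  have h := normSq_phi0 x
  rw [Quaternion.normSq_eq_norm_mul_self, Quaternion.normSq_eq_norm_mul_self] at h
  nlinarith [norm_nonneg (phi0 x), norm_nonneg x]

lemma phi0_ne {x : ℍ[ℝ]} (h : x ≠ 0) : phi0 x ≠ 0 := by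
  intro h0
  apply h
  rw [← phi0_phi0 x, h0, phi0_zero]

lemma phi0_sum {ι : Type*} (s : Finset ι) (f : ι → ℍ[ℝ]) :
    phi0 (∑ i ∈ s, f i) = ∑ i ∈ s, phi0 (f i) := by
  classical
  induction s using Finset.induction_on with
  | empty => simp
  | insert a s ha ih => rw [Finset.sum_insert ha, Finset.sum_insert ha, phi0_add, ih]

variable {n : ℕ}

/-- the form -/
noncomputable def B (A : Matrix (Fin n) (Fin n) ℍ[ℝ]) (x y : Fin n → ℍ[ℝ]) : ℍ[ℝ] :=
  ∑ i, ∑ j, phi0 (x i) * A i j * y j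

/-- the form of the identity matrix -/
noncomputable def h (x y : Fin n → ℍ[ℝ]) : ℍ[ℝ] := ∑ i, phi0 (x i) * y i

lemma B_add_left (A : Matrix (Fin n) (Fin n) ℍ[ℝ]) (x x' y : Fin n → ℍ[ℝ]) :
    B A (x + x') y = B A x y + B A x' y := by
  simp only [B, Pi.add_apply, phi0_add, add_mul, Finset.sum_add_distrib]

lemma B_add_right (A : Matrix (Fin n) (Fin n) ℍ[ℝ]) (x y y' : Fin n → ℍ[ℝ]) :
    B A x (y + y') = B A x y + B A x y' := by
  simp only [B, Pi.add_apply, mul_add, Finset.sum_add_distrib]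

lemma B_smul_left (A : Matrix (Fin n) (Fin n) ℍ[ℝ]) (r : ℝ) (x y : Fin n → ℍ[ℝ]) :
    B A (r • x) y = r • B A x y := by
  simp only [B, Pi.smul_apply, phi0_smul, smul_mul_assoc, Finset.smul_sum]

lemma B_smul_right (A : Matrix (Fin n) (Fin n) ℍ[ℝ]) (r : ℝ) (x y : Fin n → ℍ[ℝ]) :
    B A x (r • y) = r • B A x y := by
  simp only [B, Pi.smul_apply, mul_smul_comm, Finset.smul_sum]

lemma h_add_left (x x' y : Fin n → ℍ[ℝ]) : h (x + x') y = h x y + h x' y := by
  simp only [h, Pi.add_apply, phi0_add, add_mul, Finset.sum_add_distrib]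

lemma h_add_right (x y y' : Fin n → ℍ[ℝ]) : h x (y + y') = h x y + h x y' := by
  simp only [h, Pi.add_apply, mul_add, Finset.sum_add_distrib]

lemma h_sub_left (x x' y : Fin n → ℍ[ℝ]) : h (x - x') y = h x y - h x' y := by
  simp only [h, Pi.sub_apply, phi0_sub, sub_mul, Finset.sum_sub_distrib]

lemma h_sub_right (x y y' : Fin n → ℍ[ℝ]) : h x (y - y') = h x y - h x y' := by
  simp only [h, Pi.sub_apply, mul_sub, Finset.sum_sub_distrib]

lemma h_smul_left (r : ℝ) (x y : Fin n → ℍ[ℝ]) : h (r • x) y = r • h x y := by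
  simp only [h, Pi.smul_apply, phi0_smul, smul_mul_assoc, Finset.smul_sum]

lemma h_smul_right (r : ℝ) (x y : Fin n → ℍ[ℝ]) : h x (r • y) = r • h x y := by
  simp only [h, Pi.smul_apply, mul_smul_comm, Finset.smul_sum]

/-- right multiplication of a vector -/
noncomputable def rmul (x : Fin n → ℍ[ℝ]) (c : ℍ[ℝ]) : Fin n → ℍ[ℝ] := fun i => x i * c

lemma h_rmul_left (x y : Fin n → ℍ[ℝ]) (c : ℍ[ℝ]) : h (rmul x c) y = phi0 c * h x y := by
  simp only [h, rmul, phi0_mul, mul_assoc, Finset.mul_sum]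

lemma h_rmul_right (x y : Fin n → ℍ[ℝ]) (c : ℍ[ℝ]) : h x (rmul y c) = h x y * c := by
  simp only [h, rmul, ← mul_assoc, Finset.sum_mul]

lemma h_symm (x y : Fin n → ℍ[ℝ]) : phi0 (h x y) = h y x := by
  simp only [h, phi0_sum, phi0_mul, phi0_phi0]

lemma h_single_right (x : Fin n → ℍ[ℝ]) (i : Fin n) (c : ℍ[ℝ]) :
    h x (Pi.single i c) = phi0 (x i) * c := by
  unfold h
  rw [Finset.sum_eq_single i]
  · simp
  · intro j _ hj; simp [Pi.single_eq_of_ne hj]
  · simp

lemma exists_u (v : Fin n → ℍ[ℝ]) (hv : h v v = 0) (hv0 : v ≠ 0) (α : ℍ[ℝ])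
    (hα : phi0 α = α) : ∃ u, h u u = 0 ∧ h v u + h u v = α := by
  obtain ⟨i, hi⟩ : ∃ i, v i ≠ 0 := by
    by_contra hc
    push Not at hc
    exact hv0 (funext hc)
  set w : Fin n → ℍ[ℝ] := Pi.single i (phi0 (v i))⁻¹ with hw
  have h1 : h v w = 1 := by
    rw [hw, h_single_right, mul_inv_cancel₀ (phi0_ne hi)]
  have h2 : h w v = 1 := by rw [← h_symm, h1, phi0_one]
  set c : ℍ[ℝ] := (1 / 2 : ℝ) • h w w with hc
  have hcc : phi0 c = c := by rw [hc, phi0_smul, h_symm]
  have h3 : h (w - rmul v c) (w - rmul v c) = 0 := by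
    rw [h_sub_left, h_sub_right, h_sub_right, h_rmul_left, h_rmul_left, h_rmul_right,
      h_rmul_right, hv, h1, h2, hcc, hc]
    simp only [mul_zero, zero_mul, sub_zero, one_mul, mul_one]
    rw [sub_sub, ← add_smul]
    norm_num
  have h4 : h v (w - rmul v c) = 1 := by
    rw [h_sub_right, h_rmul_right, hv, h1]; simp
  have h5 : h (w - rmul v c) v = 1 := by rw [← h_symm, h4, phi0_one]
  refine ⟨rmul (w - rmul v c) ((1 / 2 : ℝ) • α), ?_, ?_⟩
  · rw [h_rmul_left, h_rmul_right, h3]; simp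
  · rw [h_rmul_left, h_rmul_right, h4, h5, phi0_smul, hα, one_mul, mul_one, ← add_smul]
    norm_num

lemma form_zero (A : Matrix (Fin n) (Fin n) ℍ[ℝ]) (α : ℍ[ℝ]) (hα : phi0 α = α) (C : ℝ)
    (hb : ∀ x, h x x = α → ‖B A x x‖ ≤ C) (v : Fin n → ℍ[ℝ]) (hv : h v v = 0) :
    B A v v = 0 := by
  by_cases hv0 : v = 0
  · subst hv0; simp [B]
  obtain ⟨u, hu, huv⟩ := exists_u v hv hv0 α hα
  by_contra hne
  have hpos : 0 < ‖B A v v‖ := norm_pos_iff.2 hne
  have key : ∀ t : ℝ, 1 ≤ t → t ^ 2 * ‖B A v v‖ ≤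
      C + ‖B A v u + B A u v‖ + ‖B A u u‖ := by
    intro t ht
    have ht0 : t ≠ 0 := by positivity
    have hx : h (t • v + t⁻¹ • u) (t • v + t⁻¹ • u) = α := by
      rw [h_add_left, h_add_right, h_add_right, h_smul_left, h_smul_left, h_smul_right,
        h_smul_right, h_smul_left, h_smul_right, h_smul_left, h_smul_right, hv, hu]
      rw [← huv]
      simp only [smul_zero, zero_add, add_zero, smul_smul]
      rw [mul_inv_cancel₀ ht0, inv_mul_cancel₀ ht0, one_smul, one_smul]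
    have hx2 := hb _ hx
    have e : B A (t • v + t⁻¹ • u) (t • v + t⁻¹ • u) =
        (t ^ 2) • B A v v + ((B A v u + B A u v) + (t⁻¹ ^ 2) • B A u u) := by
      rw [B_add_left, B_add_right, B_add_right, B_smul_left, B_smul_left, B_smul_right,
        B_smul_right, B_smul_left, B_smul_right, B_smul_left, B_smul_right]
      simp only [smul_smul]
      rw [mul_inv_cancel₀ ht0, inv_mul_cancel₀ ht0, one_smul, one_smul, sq, sq]
      abel
    rw [e] at hx2
    have h6 := norm_sub_le ((t ^ 2) • B A v v + ((B A v u + B A u v) + (t⁻¹ ^ 2) • B A u u))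
      ((B A v u + B A u v) + (t⁻¹ ^ 2) • B A u u)
    rw [add_sub_cancel_right, norm_smul, Real.norm_of_nonneg (by positivity)] at h6
    have h7 := norm_add_le (B A v u + B A u v) ((t⁻¹ ^ 2) • B A u u)
    rw [norm_smul, Real.norm_of_nonneg (by positivity)] at h7
    have h8 : t⁻¹ ^ 2 * ‖B A u u‖ ≤ 1 * ‖B A u u‖ := by
      refine mul_le_mul_of_nonneg_right ?_ (norm_nonneg _)
      exact pow_le_one₀ (by positivity) (inv_le_one_of_one_le₀ ht)
    linarith
  set D := C + ‖B A v u + B A u v‖ + ‖B A u u‖ with hD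
  have hD0 : 0 ≤ D := by
    have := key 1 le_rfl
    nlinarith
  have ht1 : 1 ≤ 1 + D / ‖B A v v‖ := by
    have : 0 ≤ D / ‖B A v v‖ := by positivity
    linarith
  have := key (1 + D / ‖B A v v‖) ht1
  have h9 : (1 + D / ‖B A v v‖) ≤ (1 + D / ‖B A v v‖) ^ 2 := by nlinarith
  have h10 : (1 + D / ‖B A v v‖) * ‖B A v v‖ ≤ D :=
    le_trans (mul_le_mul_of_nonneg_right h9 hpos.le) this
  rw [add_mul, one_mul, div_mul_cancel₀ _ hpos.ne'] at h10
  linarith

lemma B_single (A : Matrix (Fin n) (Fin n) ℍ[ℝ]) (i j : Fin n) (x y : ℍ[ℝ]) :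
    B A (Pi.single i x) (Pi.single j y) = phi0 x * A i j * y := by
  unfold B
  rw [Finset.sum_eq_single i, Finset.sum_eq_single j]
  · simp
  · intro k _ hk; simp [Pi.single_eq_of_ne hk]
  · simp
  · intro k _ hk; simp [Pi.single_eq_of_ne hk]
  · simp

lemma h_single (i j : Fin n) (x y : ℍ[ℝ]) (hij : i ≠ j) :
    h (Pi.single i x) (Pi.single j y) = 0 := by
  rw [h_single_right, Pi.single_eq_of_ne hij.symm, phi0_zero, zero_mul]

lemma h_single_self (i : Fin n) (x y : ℍ[ℝ]) :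
    h (Pi.single i x) (Pi.single i y) = phi0 x * y := by
  rw [h_single_right, Pi.single_eq_same]

/-- the consequences for a pair of indices -/
lemma pair (A : Matrix (Fin n) (Fin n) ℍ[ℝ]) (hA : ∀ v, h v v = 0 → B A v v = 0)
    (i j : Fin n) (hij : i ≠ j) (x y : ℍ[ℝ]) (hxy : phi0 x * x + phi0 y * y = 0) :
    phi0 x * A i i * x + phi0 y * A j j * y = 0 ∧
      phi0 x * A i j * y + phi0 y * A j i * x = 0 := by
  have key : ∀ y : ℍ[ℝ], phi0 x * x + phi0 y * y = 0 →
      phi0 x * A i i * x + phi0 x * A i j * y + (phi0 y * A j i * x + phi0 y * A j j * y) = 0 := by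
    intro y hxy
    have h1 := hA (Pi.single i x + Pi.single j y) (by
      rw [h_add_left, h_add_right, h_add_right, h_single_self, h_single_self,
        h_single i j _ _ hij, h_single j i _ _ hij.symm, add_zero, zero_add, hxy])
    rwa [B_add_left, B_add_right, B_add_right, B_single, B_single, B_single, B_single] at h1
  have e1 := key y hxy
  have hneg : phi0 (-y) = - phi0 y := by ext <;> simp
  have e2 := key (-y) (by rw [hneg]; simpa using hxy)
  rw [hneg] at e2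
  simp only [mul_neg, neg_mul, neg_neg] at e2
  have e3 : (2 : ℝ) • (phi0 x * A i i * x + phi0 y * A j j * y) = 0 := by
    rw [two_smul]
    rw [← add_zero (0 : ℍ[ℝ])]
    nth_rewrite 1 [← e1]
    rw [← e2]
    abel
  have e4 : (2 : ℝ) • (phi0 x * A i j * y + phi0 y * A j i * x) = 0 := by
    rw [two_smul]
    rw [← sub_zero (0 : ℍ[ℝ])]
    nth_rewrite 1 [← e1]
    rw [← e2]
    abel
  exact ⟨(smul_eq_zero.1 e3).resolve_left two_ne_zero,
    (smul_eq_zero.1 e4).resolve_left two_ne_zero⟩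

/-- the quaternion with the given coordinates -/
def qt (a b c d : ℝ) : ℍ[ℝ] := ⟨a, b, c, d⟩

@[simp] lemma qt_re (a b c d : ℝ) : (qt a b c d).re = a := rfl
@[simp] lemma qt_imI (a b c d : ℝ) : (qt a b c d).imI = b := rfl
@[simp] lemma qt_imJ (a b c d : ℝ) : (qt a b c d).imJ = c := rfl
@[simp] lemma qt_imK (a b c d : ℝ) : (qt a b c d).imK = d := rfl

lemma pair_coord (A : Matrix (Fin n) (Fin n) ℍ[ℝ]) (hA : ∀ v, h v v = 0 → B A v v = 0)
    (i j : Fin n) (hij : i ≠ j) :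
    (A j j).imJ = 0 ∧ (A j j).imK = 0 ∧ (A i j).imJ = 0 ∧ (A i j).imK = 0 ∧
      A i i = star (A j j) ∧ A j i = - star (A i j) := by
  obtain ⟨a1, a2⟩ := pair A hA i j hij 1 (qt 0 0 1 0) (by ext <;> simp)
  obtain ⟨b1, b2⟩ := pair A hA i j hij 1 (qt 0 0 0 1) (by ext <;> simp)
  rw [Quaternion.ext_iff] at a1 a2 b1 b2
  simp at a1 a2 b1 b2
  obtain ⟨a10, a11, a12, a13⟩ := a1
  obtain ⟨a20, a21, a22, a23⟩ := a2
  obtain ⟨b10, b11, b12, b13⟩ := b1
  obtain ⟨b20, b21, b22, b23⟩ := b2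
  refine ⟨by linarith, by linarith, by linarith, by linarith, ?_, ?_⟩
  · ext <;> simp <;> linarith
  · ext <;> simp <;> linarith

lemma triple (A : Matrix (Fin n) (Fin n) ℍ[ℝ]) (hA : ∀ v, h v v = 0 → B A v v = 0)
    (i j k : Fin n) (hij : i ≠ j) (hik : i ≠ k) (hjk : j ≠ k) (x y z : ℍ[ℝ])
    (hxyz : phi0 x * x + phi0 y * y + phi0 z * z = 0) :
    (phi0 x * A i i * x + phi0 y * A j j * y + phi0 z * A k k * z) +
      (phi0 x * A i j * y + phi0 y * A j i * x) = 0 := by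
  have key : ∀ z : ℍ[ℝ], phi0 x * x + phi0 y * y + phi0 z * z = 0 →
      (phi0 x * A i i * x + phi0 y * A j j * y + phi0 z * A k k * z) +
      (phi0 x * A i j * y + phi0 y * A j i * x) + ((phi0 x * A i k + phi0 y * A j k) * z +
        phi0 z * (A k i * x + A k j * y)) = 0 := by
    intro z hz
    have h1 := hA (Pi.single i x + Pi.single j y + Pi.single k z) (by
      simp only [h_add_left, h_add_right]
      rw [h_single_self, h_single_self, h_single_self, h_single i j _ _ hij,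
        h_single j i _ _ hij.symm, h_single i k _ _ hik, h_single k i _ _ hik.symm,
        h_single j k _ _ hjk, h_single k j _ _ hjk.symm]
      simpa using hz)
    simp only [B_add_left, B_add_right, B_single] at h1
    rw [← h1]
    noncomm_ring
  have e1 := key z hxyz
  have hneg : phi0 (-z) = - phi0 z := by ext <;> simp
  have e2 := key (-z) (by rw [hneg]; simpa using hxyz)
  rw [hneg] at e2
  simp only [mul_neg, neg_mul, neg_neg] at e2
  have e3 : (2 : ℝ) • ((phi0 x * A i i * x + phi0 y * A j j * y + phi0 z * A k k * z) +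
      (phi0 x * A i j * y + phi0 y * A j i * x)) = 0 := by
    rw [two_smul]
    rw [← add_zero (0 : ℍ[ℝ])]
    nth_rewrite 1 [← e1]
    rw [← e2]
    abel
  exact (smul_eq_zero.1 e3).resolve_left two_ne_zero

lemma off_zero (A : Matrix (Fin n) (Fin n) ℍ[ℝ]) (hA : ∀ v, h v v = 0 → B A v v = 0)
    (i j k : Fin n) (hij : i ≠ j) (hik : i ≠ k) (hjk : j ≠ k) :
    A i j = 0 ∧ A i i = A j j ∧ (A i i).imI = 0 ∧ (A i i).imJ = 0 ∧ (A i i).imK = 0 := by
  obtain ⟨a1, a2, a3, a4, a5, a6⟩ := pair_coord A hA i j hij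
  obtain ⟨b1, b2, b3, b4, b5, b6⟩ := pair_coord A hA k j hjk.symm
  obtain ⟨c1, c2, c3, c4, c5, c6⟩ := pair_coord A hA i k hik
  have d1 : A i i = A j j := by rw [c5, b5, star_star]
  have d2 : A k k = A j j := by rw [b5, ← a5, d1]
  have d3 : (A j j).imI = 0 := by
    have := congrArg QuaternionAlgebra.imI a5
    rw [d1] at this
    simp at this
    linarith
  have t1 := triple A hA i j k hij hik hjk (qt 1 0 2 0) (qt 2 0 1 0) (qt 2 0 (-2) 0)
    (by ext <;> simp <;> norm_num)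
  have t2 := triple A hA i j k hij hik hjk (qt 1 0 2 0) (qt 0 2 0 1) (qt 2 0 (-2) 0)
    (by ext <;> simp <;> norm_num)
  rw [Quaternion.ext_iff] at t1 t2
  rw [d1, d2, a6] at t1 t2
  simp [a1, a2, a3, a4, d3] at t1 t2
  have t11 := t1.2.1
  have t21 := t2.2.1
  refine ⟨?_, d1, by rw [d1, d3], by rw [d1, a1], by rw [d1, a2]⟩
  ext
  · simp; linarith
  · simp; linarith
  · simpa using a3
  · simpa using a4

lemma normSq_sub_le (u v : ℍ[ℝ]) :
    |normSq u - normSq v| ≤ ‖phi0 u * u + phi0 v * v‖ := by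
  have h1 : ‖phi0 u * u‖ = normSq u := by
    rw [norm_mul, norm_phi0, Quaternion.normSq_eq_norm_mul_self]
  have h2 : ‖phi0 v * v‖ = normSq v := by
    rw [norm_mul, norm_phi0, Quaternion.normSq_eq_norm_mul_self]
  rw [← h1, ← h2]
  have := abs_norm_sub_norm_le (phi0 u * u) (-(phi0 v * v))
  rwa [norm_neg, sub_neg_eq_add] at this

lemma two_bound (a b c d : ℝ) (x y : ℍ[ℝ]) :
    ‖phi0 x * (qt b a 0 0) * x + phi0 x * (qt d c 0 0) * y +
      (phi0 y * (qt (-d) c 0 0) * x + phi0 y * (qt b (-a) 0 0) * y)‖ ≤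
      (|b| + |a| + |c| + |d|) * ‖phi0 x * x + phi0 y * y‖ := by
  set α := phi0 x * x + phi0 y * y with hα
  have e : phi0 x * (qt b a 0 0) * x + phi0 x * (qt d c 0 0) * y +
      (phi0 y * (qt (-d) c 0 0) * x + phi0 y * (qt b (-a) 0 0) * y) =
      b • α + (a * (normSq x - normSq y) + c / 2 * (normSq (x + y) - normSq (x - y)) -
        d / 2 * (normSq (x + qt 0 1 0 0 * y) - normSq (x - qt 0 1 0 0 * y))) • qt 0 1 0 0 := by
    rw [hα]
    simp only [Quaternion.normSq_def']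
    ext <;> simp <;> ring
  rw [e]
  have n1 : ‖qt 0 1 0 0‖ = 1 := by
    have : normSq (qt 0 1 0 0) = 1 := by rw [Quaternion.normSq_def']; simp
    rw [Quaternion.normSq_eq_norm_mul_self] at this
    nlinarith [norm_nonneg (qt 0 1 0 0)]
  have b1 := normSq_sub_le x y
  have b2 : |normSq (x + y) - normSq (x - y)| ≤ 2 * ‖α‖ := by
    refine le_trans (normSq_sub_le _ _) (le_of_eq ?_)
    have : phi0 (x + y) * (x + y) + phi0 (x - y) * (x - y) = (2 : ℝ) • α := by
      rw [phi0_add, phi0_sub, hα, two_smul]; noncomm_ring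
    rw [this, norm_smul]; norm_num
  have b3 : |normSq (x + qt 0 1 0 0 * y) - normSq (x - qt 0 1 0 0 * y)| ≤ 2 * ‖α‖ := by
    refine le_trans (normSq_sub_le _ _) (le_of_eq ?_)
    have : phi0 (x + qt 0 1 0 0 * y) * (x + qt 0 1 0 0 * y) +
        phi0 (x - qt 0 1 0 0 * y) * (x - qt 0 1 0 0 * y) = (2 : ℝ) • α := by
      rw [hα]
      ext <;> simp <;> ring
    rw [this, norm_smul]; norm_num
  rw [← hα] at b1
  refine le_trans (norm_add_le _ _) ?_
  rw [norm_smul, norm_smul, n1, mul_one, Real.norm_eq_abs, Real.norm_eq_abs]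
  have c1 : |a * (normSq x - normSq y)| ≤ |a| * ‖α‖ := by
    rw [abs_mul]; exact mul_le_mul_of_nonneg_left b1 (abs_nonneg _)
  have c2 : |c / 2 * (normSq (x + y) - normSq (x - y))| ≤ |c| * ‖α‖ := by
    rw [abs_mul, abs_div, abs_two]
    have := mul_le_mul_of_nonneg_left b2 (abs_nonneg (c / 2))
    rw [abs_div, abs_two] at this
    linarith
  have c3 : |d / 2 * (normSq (x + qt 0 1 0 0 * y) - normSq (x - qt 0 1 0 0 * y))| ≤
      |d| * ‖α‖ := by
    rw [abs_mul, abs_div, abs_two]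
    have := mul_le_mul_of_nonneg_left b3 (abs_nonneg (d / 2))
    rw [abs_div, abs_two] at this
    linarith
  have c4 := abs_sub (a * (normSq x - normSq y) + c / 2 * (normSq (x + y) - normSq (x - y)))
    (d / 2 * (normSq (x + qt 0 1 0 0 * y) - normSq (x - qt 0 1 0 0 * y)))
  have c5 := abs_add_le (a * (normSq x - normSq y))
    (c / 2 * (normSq (x + y) - normSq (x - y)))
  linarith

end Pool.Agent.R880.QNR
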