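import Pool.Agent.R880.QNR

/-! Every nonstandard involution of the real quaternions is conjugate to the one that changes
the sign of the `i` coordinate. -/

namespace Pool.Agent.R880.QNR

open Quaternion

lemma normalize {z : ℍ[ℝ]} (hz : z ≠ 0) (hre : z.re = 0) :
    ((‖z‖⁻¹ • z) * (‖z‖⁻¹ • z) : ℍ[ℝ]) = -1 := by
  have hz' : ‖z‖ ≠ 0 := norm_ne_zero_iff.2 hz
  have h1 : z * z = -((‖z‖ * ‖z‖ : ℝ) • (1 : ℍ[ℝ])) := by
    rw [← Quaternion.normSq_eq_norm_mul_self, Quaternion.normSq_def']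
    ext <;> simp [hre] <;> ring
  rw [smul_mul_smul_comm, h1, smul_neg, smul_smul]
  have : ‖z‖⁻¹ * ‖z‖⁻¹ * (‖z‖ * ‖z‖) = 1 := by field_simp
  rw [this, one_smul]

theorem exists_tau (φ : ℍ[ℝ] →ₗ[ℝ] ℍ[ℝ]) (h1 : ∀ x y, φ (x * y) = φ y * φ x)
    (h2 : ∀ x, φ (φ x) = x) (h3 : ∃ x, φ x ≠ star x) :
    ∃ τ : ℍ[ℝ] ≃ₐ[ℝ] ℍ[ℝ], (∀ x, φ (τ x) = τ (phi0 x)) ∧ (∀ x, star (τ x) = τ (star x)) ∧
      ∀ x, ‖τ x‖ = ‖x‖ := by
  have hone : φ 1 = 1 := by
    have := h1 (φ 1) 1
    rw [mul_one, h2, mul_one] at this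
    exact this.symm
  have hreal : ∀ r : ℝ, φ (r • (1 : ℍ[ℝ])) = r • (1 : ℍ[ℝ]) := fun r => by
    rw [map_smul, hone]
  have hpure : ∀ x : ℍ[ℝ], x.re = 0 → (φ x).re = 0 := by
    intro x hx
    have e1 : x * x = (-(x.imI ^ 2 + x.imJ ^ 2 + x.imK ^ 2)) • (1 : ℍ[ℝ]) := by
      ext <;> simp [hx] <;> ring
    have e2 := h1 x x
    rw [e1, hreal] at e2
    rw [Quaternion.ext_iff] at e2
    obtain ⟨a, b, c, d⟩ := e2
    simp at a b c d
    by_contra hne
    have b' : (φ x).imI = 0 := by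
      have : (φ x).re * (φ x).imI = 0 := by linarith
      exact (mul_eq_zero.1 this).resolve_left hne
    have c' : (φ x).imJ = 0 := by
      have : (φ x).re * (φ x).imJ = 0 := by linarith
      exact (mul_eq_zero.1 this).resolve_left hne
    have d' : (φ x).imK = 0 := by
      have : (φ x).re * (φ x).imK = 0 := by linarith
      exact (mul_eq_zero.1 this).resolve_left hne
    rw [b', c', d'] at a
    have : 0 < (φ x).re * (φ x).re := mul_self_pos.2 hne
    nlinarith [sq_nonneg x.imI, sq_nonneg x.imJ, sq_nonneg x.imK]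
  have hre : ∀ x : ℍ[ℝ], (φ x).re = x.re := by
    intro x
    have e1 : x = x.re • (1 : ℍ[ℝ]) + (x - x.re • (1 : ℍ[ℝ])) := by abel
    have e2 : φ x = x.re • (1 : ℍ[ℝ]) + φ (x - x.re • (1 : ℍ[ℝ])) := by
      conv_lhs => rw [e1]
      rw [map_add, hreal]
    have e3 := hpure (x - x.re • (1 : ℍ[ℝ])) (by simp)
    rw [e2, Quaternion.re_add, e3]
    simp
  -- the anti-fixed unit
  obtain ⟨β, hβ1, hβ2, hβ3⟩ : ∃ β : ℍ[ℝ], φ β = -β ∧ β * β = -1 ∧ β.re = 0 := by
    obtain ⟨z, hz⟩ : ∃ z, φ z ≠ z := by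
      by_contra hc
      push Not at hc
      have := h1 (qt 0 1 0 0) (qt 0 0 1 0)
      rw [hc, hc, hc, Quaternion.ext_iff] at this
      obtain ⟨_, _, _, d⟩ := this
      simp at d
      linarith
    have hz0 : z - φ z ≠ 0 := sub_ne_zero.2 (Ne.symm hz)
    have hr : (z - φ z).re = 0 := by rw [Quaternion.re_sub, hre, sub_self]
    refine ⟨‖z - φ z‖⁻¹ • (z - φ z), ?_, normalize hz0 hr, ?_⟩
    · rw [map_smul, map_sub, h2, ← smul_neg, neg_sub]
    · rw [Quaternion.re_smul, hr, smul_zero]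
  -- the fixed unit
  obtain ⟨s, hs1, hs2, hs3⟩ : ∃ s : ℍ[ℝ], φ s = s ∧ s * s = -1 ∧ s.re = 0 := by
    obtain ⟨x, hx⟩ := h3
    set w : ℍ[ℝ] := x - x.re • (1 : ℍ[ℝ]) with hw
    have hwre : w.re = 0 := by simp [hw]
    have hy0 : w + φ w ≠ 0 := by
      intro h0
      apply hx
      have e1 : x = x.re • (1 : ℍ[ℝ]) + w := by rw [hw]; abel
      have e2 : φ w = -w := by rw [eq_neg_iff_add_eq_zero, add_comm]; exact h0
      have e3 : star w = -w := by ext <;> simp [hwre]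
      rw [e1, map_add, hreal, e2, star_add, e3]
      congr 1
      ext <;> simp
    have hr : (w + φ w).re = 0 := by rw [Quaternion.re_add, hre, hwre, add_zero]
    refine ⟨‖w + φ w‖⁻¹ • (w + φ w), ?_, normalize hy0 hr, ?_⟩
    · rw [map_smul, map_add, h2, add_comm w]
    · rw [Quaternion.re_smul, hr, smul_zero]
  have hanti : s * β = -(β * s) := by
    have e1 : β * s + s * β = (β * s + s * β).re • (1 : ℍ[ℝ]) := by
      ext
      · simp
      · simp [hβ3, hs3]; ring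
      · simp [hβ3, hs3]; ring
      · simp [hβ3, hs3]; ring
    have e2 : φ (β * s + s * β) = -(β * s + s * β) := by
      rw [map_add, h1, h1, hβ1, hs1]; noncomm_ring
    rw [e1, hreal, ← e1] at e2
    have e3 : (2 : ℝ) • (β * s + s * β) = 0 := by
      rw [two_smul]
      nth_rewrite 1 [e2]
      abel
    have e4 := (smul_eq_zero.1 e3).resolve_left two_ne_zero
    rw [eq_neg_iff_add_eq_zero, add_comm]
    exact e4
  let b : QuaternionAlgebra.Basis ℍ[ℝ] (-1 : ℝ) 0 (-1) :=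
    { i := β, j := s, k := β * s
      i_mul_i := by rw [hβ2]; simp
      j_mul_j := by rw [hs2]; simp
      i_mul_j := rfl
      j_mul_i := by rw [hanti]; simp }
  let f : ℍ[ℝ] →ₐ[ℝ] ℍ[ℝ] := b.liftHom
  have hf : ∀ x : ℍ[ℝ], f x = x.re • (1 : ℍ[ℝ]) + x.imI • β + x.imJ • s + x.imK • (β * s) := by
    intro x
    show algebraMap ℝ ℍ[ℝ] x.re + x.imI • β + x.imJ • s + x.imK • (β * s) = _
    rw [Algebra.algebraMap_eq_smul_one]
  have hinj : Function.Injective f := f.toRingHom.injective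
  have hsurj : Function.Surjective f :=
    (LinearMap.injective_iff_surjective (f := f.toLinearMap)).1 hinj
  let τ : ℍ[ℝ] ≃ₐ[ℝ] ℍ[ℝ] := AlgEquiv.ofBijective f ⟨hinj, hsurj⟩
  have hτ : ∀ x : ℍ[ℝ], τ x = x.re • (1 : ℍ[ℝ]) + x.imI • β + x.imJ • s + x.imK • (β * s) := hf
  have hsβ : star β = -β := by ext <;> simp [hβ3]
  have hss : star s = -s := by ext <;> simp [hs3]
  have hstar : ∀ x, star (τ x) = τ (star x) := by
    intro x
    rw [hτ, hτ]
    simp only [star_add, Quaternion.star_smul, star_one, star_mul, hsβ, hss, Quaternion.re_star,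
      Quaternion.imI_star, Quaternion.imJ_star, Quaternion.imK_star, neg_mul_neg, hanti,
      smul_neg, neg_smul, star_trivial]
  refine ⟨τ, ?_, hstar, ?_⟩
  · intro x
    rw [hτ, hτ, map_add, map_add, map_add, map_smul, map_smul, map_smul, map_smul, hone, hβ1,
      hs1, h1, hs1, hβ1]
    simp [hanti]
  · intro x
    have e1 : τ x * star (τ x) = ((normSq x : ℝ) • (1 : ℍ[ℝ])) := by
      rw [hstar, ← map_mul, Quaternion.self_mul_star]
      rw [hτ]
      simp
    rw [Quaternion.self_mul_star] at e1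
    have e2 : normSq (τ x) = normSq x := by
      have := congrArg QuaternionAlgebra.re e1
      simpa using this
    rw [Quaternion.normSq_eq_norm_mul_self, Quaternion.normSq_eq_norm_mul_self] at e2
    nlinarith [norm_nonneg (τ x), norm_nonneg x]

end Pool.Agent.R880.QNR
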